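import Mathlib

namespace Pool.Agent.Results.MP_e8bb91_co.MetricDimSubdivision

open SimpleGraph

/-! ## Definitions -/

/-- `W` is resolving: the distances to the elements of `W` determine the vertex. -/
def IsResolving {V : Type*} (G : SimpleGraph V) (W : Finset V) : Prop :=
  ∀ u v : V, (∀ w ∈ W, G.dist u w = G.dist v w) → u = v

/-- The metric dimension: the least size of a resolving set. -/
noncomputable def metricDim {V : Type*} (G : SimpleGraph V) : ℕ :=
  sInf {k | ∃ W : Finset V, W.card = k ∧ IsResolving G W}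

/-- Vertices of `G^{1/k}`: the vertices of `G` and `k - 1` internal vertices on each edge. -/
abbrev FracVertex {V : Type*} (G : SimpleGraph V) (k : ℕ) : Type _ :=
  V ⊕ (G.edgeSet × Fin (k - 1))

/-- One end of the edge `e` (all edges are oriented arbitrarily). -/
noncomputable def endA {V : Type*} {G : SimpleGraph V} (e : G.edgeSet) : V := (e : Sym2 V).out.1

/-- The other end of the edge `e`. -/
noncomputable def endB {V : Type*} {G : SimpleGraph V} (e : G.edgeSet) : V := (e : Sym2 V).out.2

/-- Adjacency of `G^{1/k}`: the internal vertices `(e, 0), ..., (e, k - 2)` form a path, whose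
first vertex is joined to `endA e` and whose last vertex is joined to `endB e`; for `k = 1` there
are no internal vertices and adjacency is that of `G`. -/
def fracAdj {V : Type*} (G : SimpleGraph V) (k : ℕ) : FracVertex G k → FracVertex G k → Prop
  | Sum.inl u, Sum.inl v => k = 1 ∧ G.Adj u v
  | Sum.inl u, Sum.inr (e, i) => (u = endA e ∧ i.val = 0) ∨ (u = endB e ∧ i.val + 2 = k)
  | Sum.inr (e, i), Sum.inl u => (u = endA e ∧ i.val = 0) ∨ (u = endB e ∧ i.val + 2 = k)
  | Sum.inr (e, i), Sum.inr (f, j) => e = f ∧ (i.val + 1 = j.val ∨ j.val + 1 = i.val)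

/-- The fractional power `G^{1/k}`. -/
def fracPow {V : Type*} (G : SimpleGraph V) (k : ℕ) : SimpleGraph (FracVertex G k) where
  Adj := fracAdj G k
  symm := by
    constructor
    rintro (u | ⟨e, i⟩) (v | ⟨f, j⟩) h
    · exact ⟨h.1, h.2.symm⟩
    · exact h
    · exact h
    · exact ⟨h.1.symm, h.2.symm⟩
  loopless := by
    constructor
    rintro (u | ⟨e, i⟩) h
    · exact G.loopless.irrefl _ h.2
    · obtain ⟨_, h | h⟩ := h <;> omega

/-- The robber's trajectories: in each round he stays or moves to a neighbour. -/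
def LazyWalk {V : Type*} (H : SimpleGraph V) (r : ℕ → V) : Prop :=
  ∀ t, r (t + 1) = r t ∨ H.Adj (r t) (r (t + 1))

/-- The answers of the first `t` rounds (latest first) when the cop uses the strategy `σ`,
which gives the next probe as a function of the earlier answers, and the robber is at `r 0`,
`r 1`, ... -/
noncomputable def answers {V : Type*} (H : SimpleGraph V) (σ : List ℕ → V) (r : ℕ → V) :
    ℕ → List ℕ
  | 0 => []
  | t + 1 => H.dist (σ (answers H σ r t)) (r t) :: answers H σ r t

/-- The answers up to and including the round in which the robber stands at `r t` leave exactly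
one possibility for the position `r t`. -/
def CopWinsAt {V : Type*} (H : SimpleGraph V) (σ : List ℕ → V) (r : ℕ → V) (t : ℕ) : Prop :=
  ∀ r' : ℕ → V, LazyWalk H r' → answers H σ r' (t + 1) = answers H σ r (t + 1) → r' t = r t

/-- `H` is cop-winnable in the probe game. -/
def CopWinnable {V : Type*} (H : SimpleGraph V) : Prop :=
  ∃ σ : List ℕ → V, ∀ r : ℕ → V, LazyWalk H r → ∃ t, CopWinsAt H σ r t

/-! ## General facts on `G^{1/k}` -/

section General

variable {V : Type*} {G : SimpleGraph V} {k : ℕ}

theorem lipschitz {W : Type*} {H : SimpleGraph W} (hc : H.Connected) (g : W → ℕ)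
    (hg : ∀ a b, H.Adj a b → g b ≤ g a + 1) (u v : W) : g v ≤ g u + H.dist u v := by
  obtain ⟨w, hw⟩ := hc.exists_walk_length_eq_dist u v
  rw [← hw]
  clear hw
  induction w with
  | nil => simp
  | cons h w ih =>
    have := hg _ _ h
    simp only [Walk.length_cons]
    omega

theorem endsMk (e : G.edgeSet) : s(endA e, endB e) = (e : Sym2 V) := by
  unfold endA endB
  exact Quot.out_eq (e : Sym2 V)

theorem endsAdj (e : G.edgeSet) : G.Adj (endA e) (endB e) := by
  have h := e.2
  rw [← endsMk e] at h
  exact h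

open Classical in
/-- The point at distance `t` from `x` on the edge `xy` of `G`. -/
noncomputable def pt (G : SimpleGraph V) (k : ℕ) (x y : V) (t : ℕ) : FracVertex G k :=
  if h0 : t = 0 then Sum.inl x
  else if hk : k ≤ t then Sum.inl y
  else if h : G.Adj x y then
    (if endA (⟨s(x, y), h⟩ : G.edgeSet) = x then Sum.inr (⟨s(x, y), h⟩, ⟨t - 1, by omega⟩)
      else Sum.inr (⟨s(x, y), h⟩, ⟨k - t - 1, by omega⟩))
  else Sum.inl x

theorem pt_zero (x y : V) : pt G k x y 0 = Sum.inl x := by
  simp [pt]

theorem pt_top (hk : 1 ≤ k) (x y : V) : pt G k x y k = Sum.inl y := by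
  unfold pt
  rw [dif_neg (by omega), dif_pos le_rfl]

theorem ends_cases {x y : V} (h : G.Adj x y) :
    (endA (⟨s(x, y), h⟩ : G.edgeSet) = x ∧ endB (⟨s(x, y), h⟩ : G.edgeSet) = y) ∨
    (endA (⟨s(x, y), h⟩ : G.edgeSet) = y ∧ endB (⟨s(x, y), h⟩ : G.edgeSet) = x) := by
  have := endsMk (⟨s(x, y), h⟩ : G.edgeSet)
  simpa [Sym2.eq_iff] using this

/-- internal points -/
theorem pt_mid {x y : V} (h : G.Adj x y) {t : ℕ} (h0 : t ≠ 0) (ht : t < k) :
    (endA (⟨s(x, y), h⟩ : G.edgeSet) = x ∧ endB (⟨s(x, y), h⟩ : G.edgeSet) = y ∧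
      pt G k x y t = Sum.inr (⟨s(x, y), h⟩, ⟨t - 1, by omega⟩)) ∨
    (endA (⟨s(x, y), h⟩ : G.edgeSet) = y ∧ endB (⟨s(x, y), h⟩ : G.edgeSet) = x ∧
      pt G k x y t = Sum.inr (⟨s(x, y), h⟩, ⟨k - t - 1, by omega⟩)) := by
  have hne : x ≠ y := h.ne
  rcases ends_cases h with h1 | h1
  · left
    refine ⟨h1.1, h1.2, ?_⟩
    unfold pt
    rw [dif_neg h0, dif_neg (by omega), dif_pos h, if_pos h1.1]
  · right
    refine ⟨h1.1, h1.2, ?_⟩
    unfold pt
    rw [dif_neg h0, dif_neg (by omega), dif_pos h, if_neg]
    rw [h1.1]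
    exact hne.symm

theorem pt_adj {x y : V} (h : G.Adj x y) {t : ℕ} (ht : t < k) :
    (fracPow G k).Adj (pt G k x y t) (pt G k x y (t + 1)) := by
  have hne : x ≠ y := h.ne
  by_cases h0 : t = 0
  · subst h0
    rw [pt_zero]
    by_cases hk : k = 1
    · subst hk
      rw [show (0 + 1 : ℕ) = 1 from rfl, pt_top le_rfl]
      exact ⟨rfl, h⟩
    · rcases pt_mid h (t := 0 + 1) (by omega) (by omega : 0 + 1 < k) with ⟨ha, hb, hp⟩ | ⟨ha, hb, hp⟩
      · rw [hp]
        left
        exact ⟨ha.symm, by simp⟩
      · rw [hp]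
        right
        refine ⟨hb.symm, ?_⟩
        simp only
        omega
  · by_cases hk : t + 1 = k
    · rcases pt_mid h h0 ht with ⟨ha, hb, hp⟩ | ⟨ha, hb, hp⟩
      · rw [hp, hk, pt_top (by omega)]
        right
        refine ⟨hb.symm, ?_⟩
        simp only
        omega
      · rw [hp, hk, pt_top (by omega)]
        left
        refine ⟨ha.symm, ?_⟩
        simp only
        omega
    · rcases pt_mid h h0 ht with ⟨ha, hb, hp⟩ | ⟨ha, hb, hp⟩
      · rcases pt_mid h (t := t + 1) (by omega) (by omega : t + 1 < k) with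
          ⟨ha', hb', hp'⟩ | ⟨ha', hb', hp'⟩
        · rw [hp, hp']
          refine ⟨rfl, Or.inl ?_⟩
          simp only
          omega
        · exact absurd (ha.symm.trans ha') hne
      · rcases pt_mid h (t := t + 1) (by omega) (by omega : t + 1 < k) with
          ⟨ha', hb', hp'⟩ | ⟨ha', hb', hp'⟩
        · exact absurd (ha'.symm.trans ha) hne
        · rw [hp, hp']
          refine ⟨rfl, Or.inr ?_⟩
          simp only
          omega

/-- every internal vertex is a point on the path of its edge -/
theorem inr_eq_pt (e : G.edgeSet) (i : Fin (k - 1)) :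
    (Sum.inr (e, i) : FracVertex G k) = pt G k (endA e) (endB e) (i.val + 1) := by
  have hi := i.2
  have hh := endsAdj e
  have he : (⟨s(endA e, endB e), hh⟩ : G.edgeSet) = e := Subtype.ext (endsMk e)
  rcases pt_mid hh (t := i.val + 1) (by omega) (by omega : i.val + 1 < k) with
    ⟨ha, hb, hp⟩ | ⟨ha, hb, hp⟩
  · rw [hp]
    simp [he]
  · exfalso
    rw [he] at ha
    exact hh.ne ha

theorem reach_pt {x y : V} (h : G.Adj x y) {t : ℕ} (ht : t ≤ k) :
    (fracPow G k).Reachable (Sum.inl x) (pt G k x y t) := by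
  induction t with
  | zero => rw [pt_zero]
  | succ t ih => exact (ih (by omega)).trans (pt_adj h (by omega)).reachable

theorem connected_fracPow (hk : 1 ≤ k) (hG : G.Connected) : (fracPow G k).Connected := by
  have hll : ∀ u v : V, (fracPow G k).Reachable (Sum.inl u) (Sum.inl v) := by
    intro u v
    obtain ⟨w⟩ := hG.preconnected u v
    induction w with
    | nil => exact Reachable.refl _
    | cons h w ih =>
      have h1 := reach_pt (k := k) h le_rfl
      rw [pt_top hk] at h1
      exact h1.trans ih
  have hrl : ∀ q : FracVertex G k, ∃ u : V, (fracPow G k).Reachable (Sum.inl u) q := by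
    rintro (u | ⟨e, i⟩)
    · exact ⟨u, Reachable.refl _⟩
    · refine ⟨endA e, ?_⟩
      have hi := i.2
      rw [inr_eq_pt]
      exact reach_pt (endsAdj e) (by omega)
  have := hG.nonempty
  have : Nonempty (FracVertex G k) := ⟨Sum.inl (Classical.arbitrary V)⟩
  refine ⟨fun p q => ?_⟩
  obtain ⟨u, hu⟩ := hrl p
  obtain ⟨v, hv⟩ := hrl q
  exact hu.symm.trans ((hll u v).trans hv)

theorem dist_pt_le (hk : 1 ≤ k) (hG : G.Connected) {x y : V} (h : G.Adj x y) {t : ℕ}
    (ht : t ≤ k) (s : ℕ) (hs : s ≤ t) :
    (fracPow G k).dist (pt G k x y s) (pt G k x y t) ≤ t - s := by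
  have hc := connected_fracPow hk hG
  induction t with
  | zero =>
    obtain rfl : s = 0 := by omega
    simp
  | succ t ih =>
    rcases Nat.lt_or_ge t s with h1 | h1
    · obtain rfl : s = t + 1 := by omega
      simp
    · have h2 := ih (by omega) h1
      have h3 := hc.dist_triangle (u := pt G k x y s) (v := pt G k x y t)
        (w := pt G k x y (t + 1))
      have h4 : (fracPow G k).dist (pt G k x y t) (pt G k x y (t + 1)) = 1 :=
        dist_eq_one_iff_adj.mpr (pt_adj h (by omega))
      omega

/-- The bound for branch vertices. -/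
theorem dist_inl_le_of_adj (hk : 1 ≤ k) (hG : G.Connected) {x y : V} (h : G.Adj x y) :
    (fracPow G k).dist (Sum.inl x) (Sum.inl y) ≤ k := by
  have := dist_pt_le hk hG h le_rfl 0 (Nat.zero_le k)
  rw [pt_zero, pt_top hk] at this
  omega

/-- The distance of branch vertices is `k` times their distance in `G`. -/
theorem dist_inl (hk : 1 ≤ k) (hG : G.Connected) (u v : V) :
    (fracPow G k).dist (Sum.inl u) (Sum.inl v) = k * G.dist u v := by
  have hc := connected_fracPow hk hG
  apply le_antisymm
  · obtain ⟨w, hw⟩ := hG.exists_walk_length_eq_dist u v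
    rw [← hw]
    clear hw
    induction w with
    | nil => simp
    | cons h w ih =>
      rename_i a b c
      have h1 := dist_inl_le_of_adj hk hG h
      have h3 := hc.dist_triangle (u := (Sum.inl a : FracVertex G k)) (v := Sum.inl b)
        (w := Sum.inl c)
      simp only [Walk.length_cons]
      nlinarith
  · let g : FracVertex G k → ℕ := fun q => match q with
      | Sum.inl v => k * G.dist u v
      | Sum.inr (e, i) => min (k * G.dist u (endA e) + (i.val + 1))
          (k * G.dist u (endB e) + (k - 1 - i.val))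
    have hstep : ∀ a b : V, G.Adj a b → k * G.dist u b ≤ k * G.dist u a + k := by
      intro a b hab
      have h1 := hG.dist_triangle (u := u) (v := a) (w := b)
      have h2 : G.dist a b = 1 := dist_eq_one_iff_adj.mpr hab
      rw [h2] at h1
      calc k * G.dist u b ≤ k * (G.dist u a + 1) := Nat.mul_le_mul_left _ h1
        _ = _ := by ring
    have hg : ∀ a b, (fracPow G k).Adj a b → g b ≤ g a + 1 := by
      rintro (a | ⟨e, i⟩) (b | ⟨f, j⟩) hab
      · obtain ⟨h1, h2⟩ := hab
        have := hstep _ _ h2
        simp only [g]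
        omega
      · have h1 := hstep _ _ (endsAdj f)
        have h2 := hstep _ _ (endsAdj f).symm
        have hj := j.2
        simp only [g]
        rcases hab with ⟨h3, h4⟩ | ⟨h3, h4⟩
        · subst h3
          omega
        · subst h3
          omega
      · have h1 := hstep _ _ (endsAdj e)
        have h2 := hstep _ _ (endsAdj e).symm
        have hj := i.2
        simp only [g]
        rcases hab with ⟨h3, h4⟩ | ⟨h3, h4⟩
        · subst h3
          omega
        · subst h3
          omega
      · obtain ⟨h3, h4⟩ := hab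
        subst h3
        have hj := j.2
        have hi := i.2
        simp only [g]
        omega
    have := lipschitz hc g hg (Sum.inl u) (Sum.inl v)
    simp only [g, dist_self, mul_zero, zero_add] at this
    exact this

/-- `p` is an internal vertex of the edge `e`. -/
def Inside (p : FracVertex G k) (e : Sym2 V) : Prop :=
  ∃ (f : G.edgeSet) (i : Fin (k - 1)), p = Sum.inr (f, i) ∧ (f : Sym2 V) = e

/-- Distances to internal vertices from outside. -/
theorem dist_inr (hk : 1 ≤ k) (hG : G.Connected) (p : FracVertex G k) (e : G.edgeSet)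
    (hp : ¬ Inside p (e : Sym2 V)) (i : Fin (k - 1)) :
    (fracPow G k).dist p (Sum.inr (e, i)) =
      min ((fracPow G k).dist p (Sum.inl (endA e)) + (i.val + 1))
        ((fracPow G k).dist p (Sum.inl (endB e)) + (k - 1 - i.val)) := by
  classical
  have hc := connected_fracPow hk hG
  have hi := i.2
  apply le_antisymm
  · apply le_min
    · have h1 := hc.dist_triangle (u := p) (v := Sum.inl (endA e))
        (w := (Sum.inr (e, i) : FracVertex G k))
      have h2 := dist_pt_le hk hG (endsAdj e) (t := i.val + 1) (by omega) 0 (Nat.zero_le _)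
      rw [pt_zero, ← inr_eq_pt] at h2
      omega
    · have h1 := hc.dist_triangle (u := p) (v := Sum.inl (endB e))
        (w := (Sum.inr (e, i) : FracVertex G k))
      have h2 := dist_pt_le hk hG (endsAdj e) (t := k) le_rfl (i.val + 1) (by omega)
      rw [pt_top hk, ← inr_eq_pt, dist_comm] at h2
      omega
  · let g : FracVertex G k → ℕ := fun q => match q with
      | Sum.inl v => (fracPow G k).dist p (Sum.inl v)
      | Sum.inr (f, j) => if f = e then
          min ((fracPow G k).dist p (Sum.inl (endA e)) + (j.val + 1))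
            ((fracPow G k).dist p (Sum.inl (endB e)) + (k - 1 - j.val))
          else (fracPow G k).dist p (Sum.inr (f, j))
    have hab1 := hc.dist_triangle (u := p) (v := Sum.inl (endA e))
        (w := (Sum.inl (endB e) : FracVertex G k))
    have hab2 := hc.dist_triangle (u := p) (v := Sum.inl (endB e))
        (w := (Sum.inl (endA e) : FracVertex G k))
    have hab3 := dist_inl_le_of_adj hk hG (endsAdj e)
    have hab4 := dist_inl_le_of_adj hk hG (endsAdj e).symm
    have hstep : ∀ a b, (fracPow G k).Adj a b →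
        (fracPow G k).dist p b ≤ (fracPow G k).dist p a + 1 := by
      intro a b hab
      have h1 := hc.dist_triangle (u := p) (v := a) (w := b)
      have h2 : (fracPow G k).dist a b = 1 := dist_eq_one_iff_adj.mpr hab
      omega
    have hg : ∀ a b, (fracPow G k).Adj a b → g b ≤ g a + 1 := by
      rintro (a | ⟨e', i'⟩) (b | ⟨f, j⟩) hab
      · simp only [g]
        exact hstep _ _ hab
      · simp only [g]
        split_ifs with hf
        · subst hf
          have hj := j.2
          rcases hab with ⟨h3, h4⟩ | ⟨h3, h4⟩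
          · subst h3
            omega
          · subst h3
            omega
        · exact hstep _ _ hab
      · simp only [g]
        split_ifs with hf
        · subst hf
          have hj := i'.2
          rcases hab with ⟨h3, h4⟩ | ⟨h3, h4⟩
          · subst h3
            omega
          · subst h3
            omega
        · exact hstep _ _ hab
      · have hab' := hab
        obtain ⟨h3, h4⟩ := hab
        subst h3
        have hj := j.2
        have hi := i'.2
        simp only [g]
        split_ifs with hf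
        · omega
        · exact hstep _ _ hab'
    have h5 := lipschitz hc g hg p (Sum.inr (e, i))
    have h6 : g p = 0 := by
      rcases p with p | ⟨f, j⟩
      · simp only [g, dist_self]
      · have hf : f ≠ e := by
          intro hf
          exact hp ⟨f, j, rfl, by rw [hf]⟩
        simp only [g, if_neg hf, dist_self]
    rw [h6] at h5
    simp only [g, if_true, zero_add] at h5
    exact h5

/-- Distances to the points of an edge from outside. -/
theorem dist_pt (hk : 1 ≤ k) (hG : G.Connected) (p : FracVertex G k) {x y : V}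
    (h : G.Adj x y) (hp : ¬ Inside p s(x, y)) {t : ℕ} (ht : t ≤ k) :
    (fracPow G k).dist p (pt G k x y t) =
      min ((fracPow G k).dist p (Sum.inl x) + t)
        ((fracPow G k).dist p (Sum.inl y) + (k - t)) := by
  have hc := connected_fracPow hk hG
  have hab1 := hc.dist_triangle (u := p) (v := Sum.inl x) (w := (Sum.inl y : FracVertex G k))
  have hab2 := hc.dist_triangle (u := p) (v := Sum.inl y) (w := (Sum.inl x : FracVertex G k))
  have hab3 := dist_inl_le_of_adj hk hG h
  have hab4 := dist_inl_le_of_adj hk hG h.symm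
  by_cases h0 : t = 0
  · subst h0
    rw [pt_zero]
    omega
  · by_cases hk' : t = k
    · subst hk'
      rw [pt_top hk]
      omega
    · rcases pt_mid h h0 (by omega : t < k) with ⟨ha, hb, hq⟩ | ⟨ha, hb, hq⟩
      · rw [hq, dist_inr hk hG p _ hp, ha, hb]
        simp only
        congr 2 <;> omega
      · rw [hq, dist_inr hk hG p _ hp, ha, hb]
        simp only
        omega

/-- Points on different edges at `x` are different. -/
theorem pt_ne {x y y' : V} (h : G.Adj x y) (h' : G.Adj x y') (hne : y ≠ y') {t : ℕ}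
    (h0 : t ≠ 0) (ht : t ≤ k) : pt G k x y t ≠ pt G k x y' t := by
  intro heq
  by_cases hk' : t = k
  · subst hk'
    rw [pt_top (by omega), pt_top (by omega)] at heq
    exact hne (Sum.inl_injective heq)
  · have key : ∀ z (hz : G.Adj x z), ∃ i, pt G k x z t = Sum.inr (⟨s(x, z), hz⟩, i) := by
      intro z hz
      rcases pt_mid hz h0 (by omega : t < k) with ⟨_, _, hq⟩ | ⟨_, _, hq⟩
      · exact ⟨_, hq⟩
      · exact ⟨_, hq⟩
    obtain ⟨i, hi⟩ := key y h
    obtain ⟨j, hj⟩ := key y' h'
    rw [hi, hj] at heq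
    have h1 := Sum.inr_injective heq
    have h2 := congrArg (fun q => (q.1 : Sym2 V)) h1
    simp only [Sym2.eq_iff] at h2
    rcases h2 with h2 | h2
    · exact hne h2.2
    · exact hne (h2.2.trans h2.1)

end General

/-! ## The graph -/

/-- A clique on all subsets of `Fin μ` together with vertices `i : Fin μ`; the vertex `i` is
adjacent to the subsets which do not contain `i`. -/
def cubeGraph (μ : ℕ) : SimpleGraph (Finset (Fin μ) ⊕ Fin μ) where
  Adj a b := match a, b with
    | Sum.inl X, Sum.inl Y => X ≠ Y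
    | Sum.inl X, Sum.inr i => i ∉ X
    | Sum.inr i, Sum.inl X => i ∉ X
    | Sum.inr _, Sum.inr _ => False
  symm := by
    constructor
    rintro (u | i) (v | j) h
    · exact Ne.symm h
    · exact h
    · exact h
    · exact h
  loopless := by
    constructor
    rintro (u | i) h
    · exact h rfl
    · exact h

section Cube

variable {μ : ℕ}

theorem cube_adj_ll {X Y : Finset (Fin μ)} (h : X ≠ Y) :
    (cubeGraph μ).Adj (Sum.inl X) (Sum.inl Y) := h

theorem cube_adj_lr {X : Finset (Fin μ)} {i : Fin μ} (h : i ∉ X) :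
    (cubeGraph μ).Adj (Sum.inl X) (Sum.inr i) := h

theorem cube_connected : (cubeGraph μ).Connected := by
  have h0 : ∀ v : Finset (Fin μ) ⊕ Fin μ, (cubeGraph μ).Reachable (Sum.inl ∅) v := by
    rintro (X | i)
    · by_cases hX : ∅ = X
      · rw [hX]
      · exact (cube_adj_ll hX).reachable
    · exact (cube_adj_lr (by simp)).reachable
  have : Nonempty (Finset (Fin μ) ⊕ Fin μ) := ⟨Sum.inl ∅⟩
  exact ⟨fun u v => (h0 u).symm.trans (h0 v)⟩

theorem cube_dist_ll {X Y : Finset (Fin μ)} (h : X ≠ Y) :
    (cubeGraph μ).dist (Sum.inl X) (Sum.inl Y) = 1 :=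
  dist_eq_one_iff_adj.mpr (cube_adj_ll h)

theorem cube_dist_lr {X : Finset (Fin μ)} {i : Fin μ} :
    (cubeGraph μ).dist (Sum.inl X) (Sum.inr i) = if i ∈ X then 2 else 1 := by
  split_ifs with h
  · have h0 : X ≠ ∅ := by
      rintro rfl
      simp at h
    have h1 := (cube_connected (μ := μ)).dist_triangle (u := Sum.inl X) (v := Sum.inl ∅)
      (w := Sum.inr i)
    have h2 : (cubeGraph μ).dist (Sum.inl ∅) (Sum.inr i) = 1 :=
      dist_eq_one_iff_adj.mpr (cube_adj_lr (by simp))
    rw [cube_dist_ll h0, h2] at h1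
    have h3 : (cubeGraph μ).dist (Sum.inl X) (Sum.inr i) ≠ 0 := by
      intro h4
      have := (cube_connected.dist_eq_zero_iff).mp h4
      simp at this
    have h5 : (cubeGraph μ).dist (Sum.inl X) (Sum.inr i) ≠ 1 := by
      intro h4
      have h6 : (cubeGraph μ).Adj (Sum.inl X) (Sum.inr i) := dist_eq_one_iff_adj.mp h4
      exact h6 h
    omega
  · exact dist_eq_one_iff_adj.mpr (cube_adj_lr h)

theorem cube_dist_rr {i j : Fin μ} (h : i ≠ j) :
    (cubeGraph μ).dist (Sum.inr i) (Sum.inr j) = 2 := by
  have h1 := (cube_connected (μ := μ)).dist_triangle (u := Sum.inr i) (v := Sum.inl ∅)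
    (w := Sum.inr j)
  have h2 : ∀ i, (cubeGraph μ).dist (Sum.inl ∅) (Sum.inr i) = 1 := fun i =>
    dist_eq_one_iff_adj.mpr (cube_adj_lr (by simp))
  rw [dist_comm (u := Sum.inr i) (v := Sum.inl ∅), h2, h2] at h1
  have h3 : (cubeGraph μ).dist (Sum.inr i) (Sum.inr j) ≠ 0 := by
    intro h4
    have := (cube_connected.dist_eq_zero_iff).mp h4
    exact h (Sum.inr_injective this)
  have h5 : (cubeGraph μ).dist (Sum.inr i) (Sum.inr j) ≠ 1 := by
    intro h4
    have h6 : (cubeGraph μ).Adj (Sum.inr i) (Sum.inr j) := dist_eq_one_iff_adj.mp h4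
    exact h6
  omega

theorem cube_diam (u v : Finset (Fin μ) ⊕ Fin μ) (h : u ≠ v) :
    (cubeGraph μ).dist u v = 1 ∨ (cubeGraph μ).dist u v = 2 := by
  rcases u with X | i <;> rcases v with Y | j
  · left
    exact cube_dist_ll (fun h' => h (by rw [h']))
  · rw [cube_dist_lr]
    split_ifs <;> simp
  · rw [dist_comm, cube_dist_lr]
    split_ifs <;> simp
  · right
    exact cube_dist_rr (fun h' => h (by rw [h']))

theorem cube_resolving : IsResolving (cubeGraph μ)
    (Finset.univ.map ⟨(Sum.inr : Fin μ → Finset (Fin μ) ⊕ Fin μ), Sum.inr_injective⟩) := by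
  intro u v h
  have h' : ∀ i : Fin μ, (cubeGraph μ).dist u (Sum.inr i) = (cubeGraph μ).dist v (Sum.inr i) := by
    intro i
    apply h
    simp
  rcases u with X | i <;> rcases v with Y | j
  · congr 1
    ext i
    have h1 := h' i
    rw [cube_dist_lr, cube_dist_lr] at h1
    split_ifs at h1 <;> tauto
  · exfalso
    have h1 := h' j
    rw [cube_dist_lr, dist_self] at h1
    split_ifs at h1
  · exfalso
    have h1 := h' i
    rw [cube_dist_lr, dist_self] at h1
    split_ifs at h1
  · by_contra hne
    have h1 := h' j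
    rw [dist_self, cube_dist_rr (fun h' => hne (by rw [h']))] at h1
    omega

theorem cube_lower (W : Finset (Finset (Fin μ) ⊕ Fin μ)) (hW : IsResolving (cubeGraph μ) W) :
    μ ≤ W.card := by
  classical
  let F : Finset (Fin μ) ⊕ Fin μ → W ⊕ (W → Bool) := fun v =>
    if h : v ∈ W then Sum.inl ⟨v, h⟩ else Sum.inr (fun w => decide ((cubeGraph μ).dist v w = 1))
  have hF : Function.Injective F := by
    intro u v huv
    by_cases hu : u ∈ W
    · by_cases hv : v ∈ W
      · simp only [F, dif_pos hu, dif_pos hv] at huv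
        have := Sum.inl_injective huv
        exact congrArg Subtype.val this
      · simp only [F, dif_pos hu, dif_neg hv] at huv
        exact absurd huv (by simp)
    · by_cases hv : v ∈ W
      · simp only [F, dif_neg hu, dif_pos hv] at huv
        exact absurd huv (by simp)
      · simp only [F, dif_neg hu, dif_neg hv] at huv
        have h1 := Sum.inr_injective huv
        apply hW
        intro w hw
        have h2 := congrFun h1 ⟨w, hw⟩
        have h3 := cube_diam u w (fun h => hu (h ▸ hw))
        have h4 := cube_diam v w (fun h => hv (h ▸ hw))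
        simp only [decide_eq_decide] at h2
        rcases h3 with h3 | h3
        · rw [h3, h2.mp h3]
        · rcases h4 with h4 | h4
          · rw [h4, h2.mpr h4]
          · rw [h3, h4]
  have hcard := Fintype.card_le_of_injective F hF
  simp only [Fintype.card_sum, Fintype.card_finset, Fintype.card_fin, Fintype.card_fun,
    Fintype.card_bool, Fintype.card_coe] at hcard
  by_contra hlt
  have hlt' : W.card < μ := by omega
  have := Nat.pow_lt_pow_right (a := 2) (by norm_num) hlt'
  omega

theorem cube_metricDim : metricDim (cubeGraph μ) = μ := by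
  unfold metricDim
  apply le_antisymm
  · apply Nat.sInf_le
    exact ⟨_, by simp, cube_resolving⟩
  · apply le_csInf
    · exact ⟨μ, _, by simp, cube_resolving⟩
    · rintro k ⟨W, rfl, hW⟩
      exact cube_lower W hW

/-- The distance from `p` to the clique vertex `X`. -/
noncomputable def D {m : ℕ} (p : FracVertex (cubeGraph μ) m) (X : Finset (Fin μ)) : ℕ :=
  (fracPow (cubeGraph μ) m).dist p (Sum.inl (Sum.inl X))

theorem D_inl_inl {m : ℕ} (hm : 1 ≤ m) {Z X : Finset (Fin μ)} (h : Z ≠ X) :
    D (m := m) (Sum.inl (Sum.inl Z)) X = m := by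
  unfold D
  rw [dist_inl hm cube_connected, cube_dist_ll h, mul_one]

theorem D_inl_inr {m : ℕ} (hm : 1 ≤ m) {i : Fin μ} {X : Finset (Fin μ)} :
    D (m := m) (Sum.inl (Sum.inr i)) X = if i ∈ X then 2 * m else m := by
  unfold D
  rw [dist_inl hm cube_connected, dist_comm, cube_dist_lr]
  split_ifs <;> ring

theorem D_inr {m : ℕ} (hm : 1 ≤ m) (e : (cubeGraph μ).edgeSet) (i : Fin (m - 1))
    (X : Finset (Fin μ)) :
    D (m := m) (Sum.inr (e, i)) X =
      min (D (m := m) (Sum.inl (endA e)) X + (i.val + 1))
        (D (m := m) (Sum.inl (endB e)) X + (m - 1 - i.val)) := by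
  have h1 := dist_inr (k := m) hm cube_connected (Sum.inl (Sum.inl X)) e
    (by rintro ⟨f, j, h, _⟩; simp at h) i
  unfold D
  rw [dist_comm, h1, dist_comm (u := (Sum.inl (Sum.inl X) : FracVertex (cubeGraph μ) m))
    (v := Sum.inl (endA e)), dist_comm (u := (Sum.inl (Sum.inl X) : FracVertex (cubeGraph μ) m))
    (v := Sum.inl (endB e))]

theorem D_self {m : ℕ} {Z : Finset (Fin μ)} :
    D (m := m) (Sum.inl (Sum.inl Z)) Z = 0 := by
  unfold D
  rw [dist_self]

/-- What a probe can see. -/
theorem probe {m : ℕ} (hm : 1 ≤ m) (hμ : 0 < μ) (p : FracVertex (cubeGraph μ) m) :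
    ∃ (Z : Finset (Finset (Fin μ))) (i : Fin μ), Z.card ≤ 2 ∧
      (∀ X Y, X ≠ Y → Y ∉ Z → ¬ Inside p s(Sum.inl X, Sum.inl Y)) ∧
      (∀ Y Y', Y ∉ Z → Y' ∉ Z → i ∉ Y → i ∉ Y' → D p Y = D p Y') ∧
      (∀ X Y, i ∉ X → Y ∉ Z → D p X ≤ D p Y) := by
  classical
  rcases p with (z | i) | ⟨e, s⟩
  · refine ⟨{z}, ⟨0, hμ⟩, by simp, ?_, ?_, ?_⟩
    · rintro X Y hXY hY ⟨f, j, h, _⟩
      simp at h
    · intro Y Y' hY hY' _ _
      rw [Finset.mem_singleton] at hY hY'
      rw [D_inl_inl hm (Ne.symm hY), D_inl_inl hm (Ne.symm hY')]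
    · intro X Y _ hY
      rw [Finset.mem_singleton] at hY
      rw [D_inl_inl hm (Ne.symm hY)]
      by_cases hX : z = X
      · subst hX
        rw [D_self]
        omega
      · rw [D_inl_inl hm hX]
  · refine ⟨∅, i, by simp, ?_, ?_, ?_⟩
    · rintro X Y hXY hY ⟨f, j, h, _⟩
      simp at h
    · intro Y Y' hY hY' hi hi'
      rw [D_inl_inr hm, D_inl_inr hm, if_neg hi, if_neg hi']
    · intro X Y hX _
      rw [D_inl_inr hm, D_inl_inr hm, if_neg hX]
      split_ifs <;> omega
  · have hs := s.2
    have hadj := endsAdj e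
    have hmk := endsMk e
    have hne := hadj.ne
    have hD := D_inr hm e s
    generalize endA e = a at *
    generalize endB e = b at *
    rcases a with z | i <;> rcases b with z' | i'
    · refine ⟨{z, z'}, ⟨0, hμ⟩, Finset.card_le_two, ?_, ?_, ?_⟩
      · rintro X Y hXY hY ⟨f, j, h, hf⟩
        have h1 := Sum.inr_injective h
        rw [Prod.mk.injEq] at h1
        rw [← h1.1, ← hmk] at hf
        apply hY
        rw [Sym2.eq_iff] at hf
        rcases hf with hf | hf
        · have := Sum.inl_injective hf.2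
          simp [this]
        · have := Sum.inl_injective hf.1
          simp [this]
      · intro Y Y' hY hY' _ _
        simp only [Finset.mem_insert, Finset.mem_singleton, not_or] at hY hY'
        rw [hD, hD, D_inl_inl hm (Ne.symm hY.1), D_inl_inl hm (Ne.symm hY.2),
          D_inl_inl hm (Ne.symm hY'.1), D_inl_inl hm (Ne.symm hY'.2)]
      · intro X Y _ hY
        simp only [Finset.mem_insert, Finset.mem_singleton, not_or] at hY
        rw [hD, hD, D_inl_inl hm (Ne.symm hY.1), D_inl_inl hm (Ne.symm hY.2)]
        by_cases hX : z = X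
        · subst hX
          rw [D_self]
          omega
        · by_cases hX' : z' = X
          · subst hX'
            rw [D_self]
            omega
          · rw [D_inl_inl hm hX, D_inl_inl hm hX']
    · have hz : i' ∉ z := hadj
      refine ⟨{z}, i', by simp, ?_, ?_, ?_⟩
      · rintro X Y hXY hY ⟨f, j, h, hf⟩
        have h1 := Sum.inr_injective h
        rw [Prod.mk.injEq] at h1
        rw [← h1.1, ← hmk] at hf
        rw [Sym2.eq_iff] at hf
        simp at hf
      · intro Y Y' hY hY' hi hi'
        simp only [Finset.mem_singleton] at hY hY'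
        rw [hD, hD, D_inl_inl hm (Ne.symm hY), D_inl_inl hm (Ne.symm hY'),
          D_inl_inr hm, D_inl_inr hm, if_neg hi, if_neg hi']
      · intro X Y hX hY
        simp only [Finset.mem_singleton] at hY
        rw [hD, hD, D_inl_inl hm (Ne.symm hY), D_inl_inr hm, D_inl_inr hm, if_neg hX]
        by_cases hX' : z = X
        · subst hX'
          rw [D_self]
          split_ifs <;> omega
        · rw [D_inl_inl hm hX']
          split_ifs <;> omega
    · have hz : i ∉ z' := hadj
      refine ⟨{z'}, i, by simp, ?_, ?_, ?_⟩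
      · rintro X Y hXY hY ⟨f, j, h, hf⟩
        have h1 := Sum.inr_injective h
        rw [Prod.mk.injEq] at h1
        rw [← h1.1, ← hmk] at hf
        rw [Sym2.eq_iff] at hf
        simp at hf
      · intro Y Y' hY hY' hi hi'
        simp only [Finset.mem_singleton] at hY hY'
        rw [hD, hD, D_inl_inl hm (Ne.symm hY), D_inl_inl hm (Ne.symm hY'),
          D_inl_inr hm, D_inl_inr hm, if_neg hi, if_neg hi']
      · intro X Y hX hY
        simp only [Finset.mem_singleton] at hY
        rw [hD, hD, D_inl_inl hm (Ne.symm hY), D_inl_inr hm, D_inl_inr hm, if_neg hX]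
        by_cases hX' : z' = X
        · subst hX'
          rw [D_self]
          split_ifs <;> omega
        · rw [D_inl_inl hm hX']
          split_ifs <;> omega
    · exact absurd hadj id

/-- The answers in the course of one phase: `q t` is the position in round `t`, and `h` is the
list of the earlier answers. -/
noncomputable def phase {W : Type*} (H : SimpleGraph W) (σ : List ℕ → W) (q : ℕ → W)
    (h : List ℕ) : ℕ → List ℕ
  | 0 => h
  | t + 1 => H.dist (σ (phase H σ q h t)) (q (t + 1)) :: phase H σ q h t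

/-- The point at distance `t` from `X` on the way from `X` to `Y`. -/
noncomputable def way (μ m : ℕ) (X Y : Finset (Fin μ)) (t : ℕ) : FracVertex (cubeGraph μ) m :=
  pt (cubeGraph μ) m (Sum.inl X) (Sum.inl Y) t

theorem phase_common {m : ℕ} (hm : 1 ≤ m) (hμ : 0 < μ)
    (σ : List ℕ → FracVertex (cubeGraph μ) m) (x : Finset (Fin μ)) (hx : x.Nonempty)
    (h : List ℕ) (t : ℕ) (ht : t ≤ m) :
    ∃ (J : Finset (Fin μ)) (F : Finset (Finset (Fin μ))) (L : List ℕ), x ⊆ J ∧
      J.card ≤ x.card + (t - m / 2) ∧ F.card ≤ 2 * t ∧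
      ∀ y : Finset (Fin μ), Disjoint y J → y ∉ F →
        phase (fracPow (cubeGraph μ) m) σ (way μ m x y) h t = L := by
  classical
  induction t with
  | zero => exact ⟨x, ∅, h, Finset.Subset.refl _, by simp, by simp, fun y _ _ => rfl⟩
  | succ t ih =>
    obtain ⟨J, F, L, hxJ, hJ, hF, hL⟩ := ih (by omega)
    obtain ⟨Z, i, hZ, hZ1, hZ2, hZ3⟩ := probe hm hμ (σ L)
    have hFZ : (F ∪ Z).card ≤ 2 * (t + 1) := by
      have := Finset.card_union_le F Z
      omega
    have hyx : ∀ y : Finset (Fin μ), Disjoint y J → x ≠ y := by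
      rintro y hy rfl
      have := (hy.mono_right hxJ)
      rw [disjoint_self] at this
      exact hx.ne_empty this
    have hdist : ∀ y : Finset (Fin μ), Disjoint y J → y ∉ Z →
        (fracPow (cubeGraph μ) m).dist (σ L) (way μ m x y (t + 1)) =
          min (D (σ L) x + (t + 1)) (D (σ L) y + (m - (t + 1))) := by
      intro y hy hyZ
      exact dist_pt hm cube_connected (σ L) (cube_adj_ll (hyx y hy)) (hZ1 x y (hyx y hy) hyZ) ht
    by_cases hearly : 2 * (t + 1) ≤ m ∧ i ∉ x
    · refine ⟨J, F ∪ Z, (D (σ L) x + (t + 1)) :: L, hxJ, by omega, hFZ, ?_⟩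
      intro y hy hyF
      rw [Finset.mem_union, not_or] at hyF
      have h1 := hL y hy hyF.1
      simp only [phase]
      rw [h1, hdist y hy hyF.2]
      have h2 := hZ3 x y hearly.2 hyF.2
      rw [min_eq_left (by omega)]
    · have hJ' : (insert i J).card ≤ x.card + (t + 1 - m / 2) := by
        by_cases hi : i ∈ J
        · rw [Finset.insert_eq_of_mem hi]
          omega
        · have : ¬ (2 * (t + 1) ≤ m) := fun h2 => hearly ⟨h2, fun h3 => hi (hxJ h3)⟩
          have := Finset.card_insert_le i J
          omega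
      by_cases hex : ∃ y0 : Finset (Fin μ), Disjoint y0 (insert i J) ∧ y0 ∉ F ∪ Z
      · obtain ⟨y0, hy0, hy0F⟩ := hex
        refine ⟨insert i J, F ∪ Z,
          (min (D (σ L) x + (t + 1)) (D (σ L) y0 + (m - (t + 1)))) :: L,
          hxJ.trans (Finset.subset_insert _ _), hJ', hFZ, ?_⟩
        intro y hy hyF
        rw [Finset.mem_union, not_or] at hyF hy0F
        have hyJ : Disjoint y J := hy.mono_right (Finset.subset_insert _ _)
        have h1 := hL y hyJ hyF.1
        simp only [phase]
        rw [h1, hdist y hyJ hyF.2]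
        have hiy : i ∉ y := fun h2 => (Finset.disjoint_left.mp hy h2) (Finset.mem_insert_self _ _)
        have hiy0 : i ∉ y0 := fun h2 =>
          (Finset.disjoint_left.mp hy0 h2) (Finset.mem_insert_self _ _)
        rw [hZ2 y y0 hyF.2 hy0F.2 hiy hiy0]
      · refine ⟨insert i J, F ∪ Z, [], hxJ.trans (Finset.subset_insert _ _), hJ', hFZ, ?_⟩
        intro y hy hyF
        exact absurd ⟨y, hy, hyF⟩ hex

/-- Two candidates avoiding a few coordinates and a few sets. -/
theorem two_candidates (J : Finset (Fin μ)) (F : Finset (Finset (Fin μ)))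
    (h : F.card + 2 ≤ (μ - J.card).choose 2) :
    ∃ y y' : Finset (Fin μ), y ≠ y' ∧ y.card = 2 ∧ y'.card = 2 ∧ Disjoint y J ∧
      Disjoint y' J ∧ y ∉ F ∧ y' ∉ F := by
  classical
  have h1 : 1 < ((Finset.powersetCard 2 (Finset.univ \ J)) \ F).card := by
    have h2 := Finset.le_card_sdiff F (Finset.powersetCard 2 (Finset.univ \ J))
    rw [Finset.card_powersetCard, Finset.card_sdiff_of_subset (Finset.subset_univ _),
      Finset.card_univ, Fintype.card_fin] at h2
    omega
  obtain ⟨y, hy, y', hy', hne⟩ := Finset.one_lt_card.mp h1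
  rw [Finset.mem_sdiff, Finset.mem_powersetCard] at hy hy'
  refine ⟨y, y', hne, hy.1.2, hy'.1.2, ?_, ?_, hy.2, hy'.2⟩
  · rw [Finset.disjoint_left]
    intro a ha
    exact (Finset.mem_sdiff.mp (hy.1.1 ha)).2
  · rw [Finset.disjoint_left]
    intro a ha
    exact (Finset.mem_sdiff.mp (hy'.1.1 ha)).2

/-- The robber's places to stop: sets with two elements. -/
abbrev Stop (μ : ℕ) : Type := {x : Finset (Fin μ) // x.card = 2}

theorem phase_step {m : ℕ} (hm : 1 ≤ m)
    (hc : 2 * m + 2 ≤ (μ - 2 - (m - m / 2)).choose 2)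
    (σ : List ℕ → FracVertex (cubeGraph μ) m) (x : Stop μ) (h : List ℕ) :
    ∃ y y' : Stop μ, y ≠ y' ∧ x ≠ y ∧ x ≠ y' ∧ ∀ t ≤ m,
      phase (fracPow (cubeGraph μ) m) σ (way μ m x.1 y.1) h t =
      phase (fracPow (cubeGraph μ) m) σ (way μ m x.1 y'.1) h t := by
  have hμ : 0 < μ := by
    rcases Nat.eq_zero_or_pos μ with h0 | h0
    · subst h0
      simp at hc
    · exact h0
  have hx : x.1.Nonempty := by
    rw [← Finset.card_pos, x.2]
    norm_num
  obtain ⟨J, F, L, hxJ, hJ, hF, hL⟩ := phase_common hm hμ σ x.1 hx h m le_rfl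
  rw [x.2] at hJ
  have hch : F.card + 2 ≤ (μ - J.card).choose 2 :=
    (by omega : F.card + 2 ≤ 2 * m + 2).trans (hc.trans (Nat.choose_le_choose 2 (by omega)))
  obtain ⟨y, y', hne, hy2, hy2', hyJ, hyJ', hyF, hyF'⟩ := two_candidates J F hch
  have hxy : ∀ z : Finset (Fin μ), Disjoint z J → x.1 ≠ z := by
    rintro z hz rfl
    have := (hz.mono_right hxJ)
    rw [disjoint_self] at this
    exact hx.ne_empty this
  refine ⟨⟨y, hy2⟩, ⟨y', hy2'⟩, fun h' => hne (congrArg Subtype.val h'),
    fun h' => hxy y hyJ (congrArg Subtype.val h'), fun h' => hxy y' hyJ' (congrArg Subtype.val h'),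
    ?_⟩
  have hend : phase (fracPow (cubeGraph μ) m) σ (way μ m x.1 y) h m =
      phase (fracPow (cubeGraph μ) m) σ (way μ m x.1 y') h m := by
    rw [hL y hyJ hyF, hL y' hyJ' hyF']
  have hdown : ∀ s, ∀ t, t + s = m →
      phase (fracPow (cubeGraph μ) m) σ (way μ m x.1 y) h t =
      phase (fracPow (cubeGraph μ) m) σ (way μ m x.1 y') h t := by
    intro s
    induction s with
    | zero =>
      intro t ht
      obtain rfl : t = m := by omega
      exact hend
    | succ s ih =>
      intro t ht
      have := ih (t + 1) (by omega)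
      simp only [phase, List.cons.injEq] at this
      exact this.2
  intro t ht
  exact hdown (m - t) t (by omega)

theorem first_step {m : ℕ} (hm : 1 ≤ m)
    (hc : 2 * m + 2 ≤ (μ - 2 - (m - m / 2)).choose 2)
    (p : FracVertex (cubeGraph μ) m) :
    ∃ y y' : Stop μ, y ≠ y' ∧ D p y.1 = D p y'.1 := by
  have hμ : 0 < μ := by
    rcases Nat.eq_zero_or_pos μ with h0 | h0
    · subst h0
      simp at hc
    · exact h0
  obtain ⟨Z, i, hZ, hZ1, hZ2, hZ3⟩ := probe hm hμ p
  have hch : Z.card + 2 ≤ (μ - ({i} : Finset (Fin μ)).card).choose 2 := by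
    rw [Finset.card_singleton]
    exact (by omega : Z.card + 2 ≤ 2 * m + 2).trans (hc.trans (Nat.choose_le_choose 2 (by omega)))
  obtain ⟨y, y', hne, hy2, hy2', hyJ, hyJ', hyF, hyF'⟩ := two_candidates {i} Z hch
  rw [Finset.disjoint_singleton_right] at hyJ hyJ'
  exact ⟨⟨y, hy2⟩, ⟨y', hy2'⟩, fun h' => hne (congrArg Subtype.val h'),
    hZ2 y y' hyF hyF' hyJ hyJ'⟩

theorem answers_congr {W : Type*} (H : SimpleGraph W) (σ : List ℕ → W) (r r' : ℕ → W) (n : ℕ)
    (h : ∀ j < n, r' j = r j) : answers H σ r' n = answers H σ r n := by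
  induction n with
  | zero => rfl
  | succ n ih =>
    simp only [answers]
    rw [ih (fun j hj => h j (by omega)), h n (by omega)]

theorem answers_phase {W : Type*} (H : SimpleGraph W) (σ : List ℕ → W) (r : ℕ → W) (n : ℕ)
    (q : ℕ → W) (m : ℕ) (h : ∀ t, 1 ≤ t → t ≤ m → r (n + t) = q t) (t : ℕ) (ht : t ≤ m) :
    answers H σ r (n + t + 1) = phase H σ q (answers H σ r (n + 1)) t := by
  induction t with
  | zero => rfl
  | succ t ih =>
    have h1 := ih (by omega)
    rw [show n + (t + 1) + 1 = (n + t + 1) + 1 by ring]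
    rw [answers, h1, show n + t + 1 = n + (t + 1) by ring, h (t + 1) (by omega) ht]
    rfl

/-- The main theorem on the robber. -/
theorem not_copWinnable {m : ℕ} (hm : 1 ≤ m)
    (hc : 2 * m + 2 ≤ (μ - 2 - (m - m / 2)).choose 2) :
    ¬ CopWinnable (fracPow (cubeGraph μ) m) := by
  rintro ⟨σ, hσ⟩
  choose f f' hff' hxf hxf' hph using phase_step hm hc σ
  obtain ⟨y0, y0', hy0, hD0⟩ := first_step hm hc (σ [])
  -- the state after each phase
  let st : ℕ → Stop μ × List ℕ := fun k => Nat.rec (y0, [D (σ []) y0.1])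
    (fun _ s => (f s.1 s.2, phase (fracPow (cubeGraph μ) m) σ (way μ m s.1.1 (f s.1 s.2).1) s.2 m)) k
  have hst0 : st 0 = (y0, [D (σ []) y0.1]) := rfl
  have hst : ∀ k, st (k + 1) = (f (st k).1 (st k).2,
      phase (fracPow (cubeGraph μ) m) σ (way μ m (st k).1.1 (f (st k).1 (st k).2).1) (st k).2 m) :=
    fun k => rfl
  let X : ℕ → Stop μ := fun k => (st k).1
  have hX : ∀ k, X (k + 1) = f (st k).1 (st k).2 := fun k => by
    simp only [X, hst]
  have hXne : ∀ k, X k ≠ X (k + 1) := fun k => by
    rw [hX]
    exact hxf _ _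
  have hXadj : ∀ k, (cubeGraph μ).Adj (Sum.inl (X k).1) (Sum.inl (X (k + 1)).1) := fun k =>
    cube_adj_ll (fun h => hXne k (Subtype.ext h))
  let r : ℕ → FracVertex (cubeGraph μ) m := fun n => way μ m (X (n / m)).1 (X (n / m + 1)).1 (n % m)
  have hr : ∀ k t, t ≤ m → r (m * k + t) = way μ m (X k).1 (X (k + 1)).1 t := by
    intro k t ht
    rcases Nat.lt_or_ge t m with h1 | h1
    · simp only [r]
      rw [Nat.mul_add_div (by omega), Nat.div_eq_of_lt h1, Nat.mul_add_mod,
        Nat.mod_eq_of_lt h1, add_zero]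
    · obtain rfl : t = m := by omega
      simp only [r]
      rw [Nat.mul_add_div (by omega), Nat.div_self (by omega), Nat.mul_add_mod, Nat.mod_self]
      unfold way
      rw [pt_zero, pt_top hm]
  have hwalk : LazyWalk (fracPow (cubeGraph μ) m) r := by
    intro n
    right
    have h1 := Nat.div_add_mod n m
    have h2 := Nat.mod_lt n (by omega : 0 < m)
    rw [← h1]
    rw [add_assoc, hr _ _ h2.le, hr _ _ (by omega : n % m + 1 ≤ m)]
    exact pt_adj (hXadj _) h2
  have hr0 : r 0 = Sum.inl (Sum.inl y0.1) := by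
    have h0 := hr 0 0 (Nat.zero_le _)
    rw [mul_zero, add_zero] at h0
    rw [h0]
    unfold way
    rw [pt_zero]
    rfl
  have hans : ∀ k, answers (fracPow (cubeGraph μ) m) σ r (m * k + 1) = (st k).2 := by
    intro k
    induction k with
    | zero =>
      rw [hst0]
      simp only [mul_zero, answers]
      rw [hr0]
      rfl
    | succ k ih =>
      have h1 := answers_phase (fracPow (cubeGraph μ) m) σ r (m * k)
        (way μ m (X k).1 (X (k + 1)).1) m (fun t _ ht => hr k t ht) m le_rfl
      rw [show m * (k + 1) + 1 = m * k + m + 1 by ring, h1, ih, hst, hX]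
  obtain ⟨n, hn⟩ := hσ r hwalk
  rcases Nat.eq_zero_or_pos n with h0 | h0
  · subst h0
    have h1 := hn (fun _ => Sum.inl (Sum.inl y0'.1)) (fun t => Or.inl rfl) (by
      simp only [answers, List.cons.injEq, and_true]
      rw [hr0]
      exact hD0.symm)
    simp only [hr0] at h1
    exact hy0 (Subtype.ext (Sum.inl_injective (Sum.inl_injective h1)).symm)
  · obtain ⟨k, t, ht1, htm, hnk⟩ : ∃ k t, 1 ≤ t ∧ t ≤ m ∧ n = m * k + t := by
      refine ⟨(n - 1) / m, (n - 1) % m + 1, by omega, ?_, ?_⟩
      · have := Nat.mod_lt (n - 1) (by omega : 0 < m)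
        omega
      · have := Nat.div_add_mod (n - 1) m
        omega
    subst hnk
    let z : Stop μ := f' (st k).1 (st k).2
    have hzX : X (k + 1) ≠ z := by
      rw [hX]
      exact hff' _ _
    have hXz : X k ≠ z := hxf' _ _
    let r' : ℕ → FracVertex (cubeGraph μ) m := fun j =>
      if j ≤ m * k then r j else way μ m (X k).1 z.1 (min (j - m * k) m)
    have hadj : (cubeGraph μ).Adj (Sum.inl (X k).1) (Sum.inl z.1) :=
      cube_adj_ll (fun h => hXz (Subtype.ext h))
    have hr'0 : r' (m * k) = way μ m (X k).1 z.1 0 := by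
      simp only [r', if_pos le_rfl]
      have := hr k 0 (Nat.zero_le _)
      rw [add_zero] at this
      rw [this]
      unfold way
      rw [pt_zero, pt_zero]
    have hr'1 : ∀ j, r' (m * k + j) = way μ m (X k).1 z.1 (min j m) := by
      intro j
      rcases Nat.eq_zero_or_pos j with h1 | h1
      · subst h1
        rw [add_zero, hr'0]
        simp
      · simp only [r']
        rw [if_neg (by omega), Nat.add_sub_cancel_left]
    have hwalk' : LazyWalk (fracPow (cubeGraph μ) m) r' := by
      intro j
      rcases Nat.lt_or_ge j (m * k) with h1 | h1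
      · simp only [r', if_pos h1.le, if_pos (by omega : j + 1 ≤ m * k)]
        exact hwalk j
      · obtain ⟨i, rfl⟩ := Nat.exists_eq_add_of_le h1
        rw [add_assoc, hr'1, hr'1]
        rcases Nat.lt_or_ge i m with h2 | h2
        · right
          rw [min_eq_left h2.le, min_eq_left (by omega)]
          exact pt_adj hadj h2
        · left
          rw [min_eq_right h2, min_eq_right (by omega)]
    have hans' : answers (fracPow (cubeGraph μ) m) σ r' (m * k + 1) = (st k).2 := by
      rw [← hans k]
      apply answers_congr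
      intro j hj
      simp only [r', if_pos (by omega : j ≤ m * k)]
    have h1 := answers_phase (fracPow (cubeGraph μ) m) σ r (m * k)
      (way μ m (X k).1 (X (k + 1)).1) m (fun t _ ht => hr k t ht) t htm
    have h2 := answers_phase (fracPow (cubeGraph μ) m) σ r' (m * k)
      (way μ m (X k).1 z.1) m (fun t _ ht => by rw [hr'1, min_eq_left ht]) t htm
    have h3 := hn r' hwalk' (by
      rw [h1, h2, hans, hans', hX]
      exact (hph (st k).1 (st k).2 t htm).symm)
    rw [hr'1, min_eq_left htm, hr k t htm] at h3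
    exact pt_ne hadj (hXadj k) (fun h => hzX (Subtype.ext (Sum.inl_injective h).symm))
      (by omega) htm h3

end Cube

/-- For all `μ` and `m` with `2 m + 2 ≤ C(μ - 2 - ⌈m/2⌉, 2)` there is a finite connected graph
of metric dimension `μ` whose fractional power `G^{1/m}` is not cop-winnable. In particular
`G^{1/(μ(G)+1)}` is not always cop-winnable. -/
theorem result :
    (∀ μ m : ℕ, 1 ≤ m → 2 * m + 2 ≤ (μ - 2 - (m - m / 2)).choose 2 →
      ∃ (V : Type) (_ : Finite V) (G : SimpleGraph V), G.Connected ∧ metricDim G = μ ∧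
        ¬ CopWinnable (fracPow G m)) ∧
    ¬ ∀ (V : Type) [Finite V] (G : SimpleGraph V), G.Connected →
      CopWinnable (fracPow G (metricDim G + 1)) := by
  refine ⟨fun μ m hm hc => ⟨_, inferInstance, cubeGraph μ, cube_connected, cube_metricDim,
    not_copWinnable hm hc⟩, fun h => ?_⟩
  have h1 := h _ (cubeGraph 29) cube_connected
  rw [cube_metricDim] at h1
  exact not_copWinnable (by norm_num) (by decide) h1

end Pool.Agent.Results.MP_e8bb91_co.MetricDimSubdivision
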